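import Pool.Agent.K3h65.RL.Finite
import Pool.Agent.H617R3.BT.Sieve

/-!
The Brun-Titchmarsh part.
-/

set_option autoImplicit false

namespace Pool.Agent.K3h65.RL

open Finset Filter
open ArithmeticFunction (vonMangoldt)

lemma bt_part (a θ ε : ℝ) (ha : 0 < a) (hθ : 0 < θ) (hθ1 : θ < 1) (hε : 0 < ε) :
    ∀ᶠ x : ℝ in atTop, ∀ N : ℕ, ⌊3 * x⌋₊ < N → ∀ ℓ : ℕ, ℓ.Prime → ⌊x ^ a⌋₊ < ℓ → ℓ ≤ ⌊x ^ θ⌋₊ →
      Th N ⌈x⌉₊ ⌊3 * x⌋₊ ℓ ≤ (2 + ε) * (1 + ε) ^ 3 * (2 * x * Real.log x) / (ℓ * Real.log (x / ℓ)) := by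
  obtain ⟨N₀, hN3, hbt⟩ := Pool.Agent.H617R3.BT.bt2 ε hε
  have e1 : ∀ᶠ x : ℝ in atTop, (N₀ : ℝ) ≤ x ^ (1 - θ) :=
    (tendsto_rpow_atTop (by linarith)).eventually (eventually_ge_atTop _)
  have e2 : ∀ᶠ x : ℝ in atTop, 1 + 1 / ε ≤ x ^ a :=
    (tendsto_rpow_atTop ha).eventually (eventually_ge_atTop _)
  have e3 : ∀ᶠ x : ℝ in atTop, 1 / (2 * ε) ≤ x ^ (1 - θ) :=
    (tendsto_rpow_atTop (by linarith)).eventually (eventually_ge_atTop _)
  have e4 : ∀ᶠ x : ℝ in atTop, Real.log 3 / ε ≤ Real.log x :=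
    Real.tendsto_log_atTop.eventually (eventually_ge_atTop _)
  filter_upwards [e1, e2, e3, e4, eventually_ge_atTop 10] with x h1 h2 h3 h4 h5 N hN ℓ hℓ hℓa hℓθ
  have hx0 : 0 < x := by linarith
  have hlx : 0 < Real.log x := Real.log_pos (by linarith)
  have hℓ0 : (0 : ℝ) < ℓ := by exact_mod_cast hℓ.pos
  have hℓ1 : (ℓ : ℝ) ≤ x ^ θ := (Nat.le_floor_iff (by positivity)).1 hℓθ
  have hℓ2 : x ^ a < ℓ := (Nat.floor_lt (by positivity)).1 hℓa
  have hxx : x ^ (1 - θ) * x ^ θ = x := by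
    rw [← Real.rpow_add hx0, sub_add_cancel, Real.rpow_one]
  have hxl : x ^ (1 - θ) ≤ x / ℓ := by
    rw [le_div_iff₀ hℓ0]
    calc x ^ (1 - θ) * ℓ ≤ x ^ (1 - θ) * x ^ θ := mul_le_mul_of_nonneg_left hℓ1 (by positivity)
      _ = x := hxx
  set A := ⌈x⌉₊ with hA
  set B := ⌊3 * x⌋₊ with hB
  have hA1 : x ≤ A := Nat.le_ceil x
  have hA2 : (A : ℝ) < x + 1 := Nat.ceil_lt_add_one hx0.le
  have hB1 : (B : ℝ) ≤ 3 * x := Nat.floor_le (by positivity)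
  have hB2 : 3 * x < B + 1 := Nat.lt_floor_add_one _
  have hAB : A < B := by
    have : (A : ℝ) < B := by linarith
    exact_mod_cast this
  have hT := Th_card N A B ℓ hAB hN hℓ.one_lt.le
  obtain ⟨T, hTdef⟩ : ∃ T, T = (B - A - 1) / ℓ + 1 := ⟨_, rfl⟩
  rw [← hTdef] at hT
  have hT1 : x / ℓ ≤ T := by
    rw [div_le_iff₀ hℓ0]
    have e5 : B - A - 1 < ℓ * ((B - A - 1) / ℓ + 1) := Nat.lt_mul_div_succ _ hℓ.pos
    rw [← hTdef] at e5
    have e6 : B ≤ ℓ * T + A := by omega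
    have e7 : (B : ℝ) ≤ ℓ * T + A := by exact_mod_cast e6
    linarith
  have hT2 : (T : ℝ) ≤ 2 * x / ℓ + 1 := by
    have e5 : (B - A - 1) / ℓ * ℓ ≤ B - A - 1 := Nat.div_mul_le_self _ _
    have e6 : (B - A - 1) / ℓ * ℓ + A ≤ B := by omega
    have e7 : (((B - A - 1) / ℓ : ℕ) : ℝ) * ℓ + A ≤ B := by exact_mod_cast e6
    have e8 : (((B - A - 1) / ℓ : ℕ) : ℝ) ≤ 2 * x / ℓ := by
      rw [le_div_iff₀ hℓ0]
      linarith
    have e9 : (T : ℝ) = (((B - A - 1) / ℓ : ℕ) : ℝ) + 1 := by rw [hTdef]; push_cast; ring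
    linarith
  have hT3 : (T : ℝ) ≤ (1 + ε) * (2 * x / ℓ) := by
    have e5 : 1 ≤ ε * (2 * x / ℓ) := by
      have e6 : 1 / (2 * ε) ≤ x / ℓ := h3.trans hxl
      rw [div_le_iff₀ (by positivity)] at e6
      calc (1 : ℝ) ≤ x / ℓ * (2 * ε) := e6
        _ = _ := by ring
    linarith
  have hTN : N₀ ≤ T := by
    have : (N₀ : ℝ) ≤ T := (h1.trans hxl).trans hT1
    exact_mod_cast this
  have hxl0 : 1 < x / ℓ := by
    have : (3 : ℝ) ≤ N₀ := by exact_mod_cast hN3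
    linarith
  have hlxl : 0 < Real.log (x / ℓ) := Real.log_pos hxl0
  have hlT : Real.log (x / ℓ) ≤ Real.log T := Real.log_le_log (by linarith) hT1
  have hφ : (ℓ : ℝ) / Nat.totient ℓ ≤ 1 + ε := by
    rw [Nat.totient_prime hℓ, Nat.cast_sub hℓ.one_lt.le, Nat.cast_one]
    have e5 : 1 + 1 / ε ≤ ℓ := h2.trans hℓ2.le
    have e6 : 1 / ε ≤ (ℓ : ℝ) - 1 := by linarith
    have e7 : 0 < (ℓ : ℝ) - 1 := lt_of_lt_of_le (by positivity) e6
    rw [div_le_iff₀ e7]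
    rw [div_le_iff₀ hε] at e6
    nlinarith
  have hlB : Real.log B ≤ (1 + ε) * Real.log x := by
    have e5 : Real.log B ≤ Real.log (3 * x) := by
      apply Real.log_le_log _ hB1
      have : (0 : ℝ) < A := by linarith
      have : (A : ℝ) < B := by exact_mod_cast hAB
      linarith
    rw [Real.log_mul (by norm_num) hx0.ne'] at e5
    rw [div_le_iff₀ hε] at h4
    linarith
  have hb := hbt (A + 1 + (N - (A + 1)) % ℓ) ℓ T hℓ.one_lt.le hTN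
  have hTl : (T : ℝ) / Real.log T ≤ (1 + ε) * (2 * x / ℓ) / Real.log (x / ℓ) :=
    div_le_div₀ (by positivity) hT3 hlxl hlT
  calc Th N A B ℓ ≤ Real.log B * (((range T).filter
      (fun t => (A + 1 + (N - (A + 1)) % ℓ + t * ℓ).Prime)).card : ℝ) := hT
    _ ≤ ((1 + ε) * Real.log x) * ((2 + ε) * (1 + ε) * ((1 + ε) * (2 * x / ℓ) / Real.log (x / ℓ))) := by
        apply mul_le_mul hlB _ (Nat.cast_nonneg _) (by positivity)
        refine hb.trans ?_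
        rw [mul_div_assoc]
        apply mul_le_mul _ hTl _ (by positivity)
        · exact mul_le_mul_of_nonneg_left hφ (by positivity)
        · exact div_nonneg (Nat.cast_nonneg _) (hlxl.le.trans hlT)
    _ = _ := by
        field_simp

end Pool.Agent.K3h65.RL
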