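import Mathlib

/-!
The finite identities and inequalities behind Chebyshev's method for the numbers `N - p`.
-/

set_option autoImplicit false

namespace Pool.Agent.K3h65.RL

open Finset
open ArithmeticFunction (vonMangoldt)

/-- the primes of `(A, B]` which do not divide `N` -/
def PP (N A B : ℕ) : Finset ℕ := (Ioc A B).filter fun p => p.Prime ∧ ¬ p ∣ N

/-- the sum of `log p` over the `p` with `d ∣ N - p` -/
noncomputable def Th (N A B d : ℕ) : ℝ := ∑ p ∈ (PP N A B).filter (fun p => d ∣ N - p), Real.log p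

/-- the weights -/
noncomputable def w (Z d : ℕ) : ℝ := if d.minFac ≤ Z then vonMangoldt d else 0

lemma mem_PP {N A B p : ℕ} : p ∈ PP N A B ↔ (A < p ∧ p ≤ B) ∧ p.Prime ∧ ¬ p ∣ N := by
  unfold PP
  rw [mem_filter, mem_Ioc]

lemma w_nonneg (Z d : ℕ) : 0 ≤ w Z d := by
  unfold w
  split_ifs
  · exact ArithmeticFunction.vonMangoldt_nonneg
  · exact le_rfl

lemma w_le (Z d : ℕ) : w Z d ≤ vonMangoldt d := by
  unfold w
  split_ifs
  · exact le_rfl
  · exact ArithmeticFunction.vonMangoldt_nonneg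

lemma Th_nonneg (N A B d : ℕ) : 0 ≤ Th N A B d :=
  sum_nonneg fun _ _ => Real.log_natCast_nonneg _

lemma switch (N A B Z : ℕ) (hB : B < N) :
    ∑ p ∈ PP N A B, Real.log p * ∑ d ∈ (N - p).divisors, w Z d =
      ∑ d ∈ Ioc 0 N, w Z d * Th N A B d := by
  unfold Th
  have h : ∀ p ∈ PP N A B, Real.log p * ∑ d ∈ (N - p).divisors, w Z d =
      ∑ d ∈ Ioc 0 N, if d ∣ N - p then w Z d * Real.log p else 0 := by
    intro p hp
    rw [mem_PP] at hp
    have e : (N - p).divisors = (Ioc 0 N).filter (fun d => d ∣ N - p) := by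
      ext d
      simp only [Nat.mem_divisors, mem_filter, mem_Ioc]
      constructor
      · rintro ⟨h, h0⟩
        exact ⟨⟨Nat.pos_of_dvd_of_pos h (by omega), (Nat.le_of_dvd (by omega) h).trans (Nat.sub_le _ _)⟩, h⟩
      · rintro ⟨_, h⟩
        exact ⟨h, by omega⟩
    rw [e, sum_filter, mul_sum]
    apply sum_congr rfl
    intro d _
    split_ifs <;> ring
  rw [sum_congr rfl h, sum_comm]
  apply sum_congr rfl
  intro d _
  rw [mul_sum, sum_filter]

lemma w_sum (Z m : ℕ) (h : ∀ q, q.Prime → q ∣ m → q ≤ Z) :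
    ∑ d ∈ m.divisors, w Z d = Real.log m := by
  rw [← ArithmeticFunction.vonMangoldt_sum]
  apply sum_congr rfl
  intro d hd
  unfold w
  split_ifs with h1
  · rfl
  · by_contra h2
    have h3 : vonMangoldt d ≠ 0 := fun h => h2 h.symm
    rw [ArithmeticFunction.vonMangoldt_ne_zero_iff] at h3
    have h4 : d ≠ 1 := h3.ne_one
    exact h1 (h _ (Nat.minFac_prime h4) ((Nat.minFac_dvd d).trans (Nat.dvd_of_mem_divisors hd)))

lemma lower (N A B Z : ℕ) (hN : 0 < N) (hB : 2 * B ≤ N) (G : Finset ℕ) (hGP : G ⊆ PP N A B)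
    (hG : ∀ p ∈ PP N A B, p ∉ G → ∀ q, q.Prime → q ∣ N - p → q ≤ Z) (h4 : 2 ≤ N) :
    (∑ p ∈ PP N A B, Real.log p - G.card * Real.log B) * (Real.log N - Real.log 2) ≤
      ∑ p ∈ PP N A B, Real.log p * ∑ d ∈ (N - p).divisors, w Z d := by
  have hN0 : (0 : ℝ) < N := by exact_mod_cast hN
  have h1 : ∑ p ∈ PP N A B \ G, Real.log p * (Real.log N - Real.log 2) ≤
      ∑ p ∈ PP N A B, Real.log p * ∑ d ∈ (N - p).divisors, w Z d := by
    rw [← sum_sdiff hGP]
    have h2 : 0 ≤ ∑ p ∈ G, Real.log p * ∑ d ∈ (N - p).divisors, w Z d :=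
      sum_nonneg fun p _ => mul_nonneg (Real.log_natCast_nonneg p) (sum_nonneg fun d _ => w_nonneg Z d)
    have h3 : ∑ p ∈ PP N A B \ G, Real.log p * (Real.log N - Real.log 2) ≤
        ∑ p ∈ PP N A B \ G, Real.log p * ∑ d ∈ (N - p).divisors, w Z d := by
      apply sum_le_sum
      intro p hp
      rw [mem_sdiff] at hp
      apply mul_le_mul_of_nonneg_left _ (Real.log_natCast_nonneg p)
      rw [w_sum Z (N - p) (hG p hp.1 hp.2)]
      have hp' := mem_PP.1 hp.1
      have h5 : N ≤ 2 * (N - p) := by omega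
      rw [← Real.log_div hN0.ne' (by norm_num)]
      apply Real.log_le_log (by positivity)
      rw [div_le_iff₀ (by norm_num)]
      have h6 : (N : ℝ) ≤ 2 * ((N - p : ℕ) : ℝ) := by exact_mod_cast h5
      linarith
    linarith
  refine le_trans ?_ h1
  rw [← sum_mul]
  apply mul_le_mul_of_nonneg_right
  · have h2 : ∑ p ∈ G, Real.log p ≤ G.card * Real.log B := by
      rw [← nsmul_eq_mul]
      apply sum_le_card_nsmul
      intro p hp
      have hp' := mem_PP.1 (hGP hp)
      apply Real.log_le_log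
      · exact_mod_cast hp'.2.1.pos
      · exact_mod_cast hp'.1.2
    have h3 := sum_sdiff (f := fun p : ℕ => Real.log p) hGP
    linarith
  · rw [sub_nonneg]
    exact Real.log_le_log (by norm_num) (by exact_mod_cast h4)

/-- no prime when `d` and `N` have a common factor -/
lemma Th_zero (N A B d : ℕ) (hB : B < N) (h : ¬ Nat.Coprime N d) : Th N A B d = 0 := by
  unfold Th
  rw [filter_eq_empty_iff.2, sum_empty]
  intro p hp hd
  have hp' := mem_PP.1 hp
  obtain ⟨q, hq, hqN, hqd⟩ := Nat.Prime.not_coprime_iff_dvd.1 h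
  have h1 : q ∣ N - p := hqd.trans hd
  have h2 : q ∣ p := (Nat.dvd_sub_iff_right (by omega) hqN).1 h1
  have h3 : q = p := (Nat.prime_dvd_prime_iff_eq hq hp'.2.1).1 h2
  exact hp'.2.2 (h3 ▸ hqN)

lemma Th_PS (N A B d : ℕ) (hAB : A ≤ B) (hB : B < N) :
    Th N A B d ≤ ∑ n ∈ (Icc 1 B).filter (fun n => n ≡ N [MOD d]), vonMangoldt n -
      ∑ n ∈ (Icc 1 A).filter (fun n => n ≡ N [MOD d]), vonMangoldt n := by
  have h1 : (Icc 1 B).filter (fun n => n ≡ N [MOD d]) =
      (Icc 1 A).filter (fun n => n ≡ N [MOD d]) ∪ (Ioc A B).filter (fun n => n ≡ N [MOD d]) := by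
    ext n
    simp only [mem_union, mem_filter, mem_Icc, mem_Ioc]
    constructor
    · rintro ⟨h, h'⟩
      by_cases h2 : n ≤ A
      · exact Or.inl ⟨⟨h.1, h2⟩, h'⟩
      · exact Or.inr ⟨⟨by omega, h.2⟩, h'⟩
    · rintro (⟨h, h'⟩ | ⟨h, h'⟩)
      · exact ⟨⟨h.1, h.2.trans hAB⟩, h'⟩
      · exact ⟨⟨by omega, h.2⟩, h'⟩
  have h2 : Disjoint ((Icc 1 A).filter (fun n => n ≡ N [MOD d])) ((Ioc A B).filter (fun n => n ≡ N [MOD d])) := by
    rw [disjoint_left]
    intro n h h'
    simp only [mem_filter, mem_Icc, mem_Ioc] at h h'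
    omega
  rw [h1, sum_union h2, add_sub_cancel_left]
  unfold Th
  calc ∑ p ∈ (PP N A B).filter (fun p => d ∣ N - p), Real.log p
      = ∑ p ∈ (PP N A B).filter (fun p => d ∣ N - p), vonMangoldt p := by
        apply sum_congr rfl
        intro p hp
        rw [mem_filter, mem_PP] at hp
        rw [ArithmeticFunction.vonMangoldt_apply_prime hp.1.2.1]
    _ ≤ _ := by
        apply sum_le_sum_of_subset_of_nonneg _ fun _ _ _ => ArithmeticFunction.vonMangoldt_nonneg
        intro p hp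
        rw [mem_filter, mem_PP] at hp
        rw [mem_filter, mem_Ioc]
        exact ⟨hp.1.1, (Nat.modEq_iff_dvd' (by omega)).2 hp.2⟩

lemma Th_card (N A B d : ℕ) (hAB : A < B) (hB : B < N) (hd : 1 ≤ d) :
    Th N A B d ≤ Real.log B * (((range ((B - A - 1) / d + 1)).filter
      (fun t => (A + 1 + (N - (A + 1)) % d + t * d).Prime)).card : ℝ) := by
  unfold Th
  have h1 : (PP N A B).filter (fun p => d ∣ N - p) ⊆ ((range ((B - A - 1) / d + 1)).filter
      (fun t => (A + 1 + (N - (A + 1)) % d + t * d).Prime)).image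
        (fun t => A + 1 + (N - (A + 1)) % d + t * d) := by
    intro p hp
    rw [mem_filter, mem_PP] at hp
    rw [mem_image]
    have h2 : N - (A + 1) = (N - p) + (p - (A + 1)) := by omega
    obtain ⟨c, hc⟩ := hp.2
    have h3 : (N - (A + 1)) % d = (p - (A + 1)) % d := by
      rw [h2, hc, Nat.mul_add_mod]
    have h4 : A + 1 + (N - (A + 1)) % d + (p - (A + 1)) / d * d = p := by
      rw [h3]
      have := Nat.mod_add_div (p - (A + 1)) d
      rw [mul_comm d] at this
      omega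
    refine ⟨(p - (A + 1)) / d, ?_, h4⟩
    rw [mem_filter, mem_range, h4]
    refine ⟨?_, hp.1.2.1⟩
    have : (p - (A + 1)) / d ≤ (B - A - 1) / d := Nat.div_le_div_right (by omega)
    omega
  calc ∑ p ∈ (PP N A B).filter (fun p => d ∣ N - p), Real.log p
      ≤ ((PP N A B).filter (fun p => d ∣ N - p)).card • Real.log B := by
        apply sum_le_card_nsmul
        intro p hp
        rw [mem_filter, mem_PP] at hp
        apply Real.log_le_log
        · exact_mod_cast hp.1.2.1.pos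
        · exact_mod_cast hp.1.1.2
    _ ≤ _ := by
        rw [nsmul_eq_mul, mul_comm]
        apply mul_le_mul_of_nonneg_left _ (Real.log_natCast_nonneg B)
        exact_mod_cast (card_le_card h1).trans card_image_le

lemma Th_trivial (N A B d : ℕ) (hAB : A < B) (hB : B < N) (hd : 1 ≤ d) :
    Th N A B d ≤ Real.log B * (((B : ℝ) - A) / d + 1) := by
  refine (Th_card N A B d hAB hB hd).trans ?_
  apply mul_le_mul_of_nonneg_left _ (Real.log_natCast_nonneg B)
  have h1 : ((range ((B - A - 1) / d + 1)).filter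
      (fun t => (A + 1 + (N - (A + 1)) % d + t * d).Prime)).card ≤ (B - A - 1) / d + 1 := by
    refine (card_filter_le _ _).trans ?_
    rw [card_range]
  have hd0 : (0 : ℝ) < d := by exact_mod_cast hd
  have h2 : (((B - A - 1) / d : ℕ) : ℝ) ≤ ((B : ℝ) - A) / d := by
    rw [le_div_iff₀ hd0]
    have h3 : (B - A - 1) / d * d ≤ B - A - 1 := Nat.div_mul_le_self _ _
    have h4 : (B - A - 1) / d * d + A ≤ B := by omega
    have h5 : (((B - A - 1) / d : ℕ) : ℝ) * d + A ≤ B := by exact_mod_cast h4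
    linarith
  have h6 : (((range ((B - A - 1) / d + 1)).filter
      (fun t => (A + 1 + (N - (A + 1)) % d + t * d).Prime)).card : ℝ) ≤ (((B - A - 1) / d : ℕ) : ℝ) + 1 := by
    exact_mod_cast h1
  linarith

lemma w_total (N Z : ℕ) :
    ∑ d ∈ Ioc 0 N, w Z d ≤ Z * (Nat.log 2 N + 1) * Real.log Z := by
  have h1 : ∑ d ∈ Ioc 0 N, w Z d = ∑ d ∈ (Ioc 0 N).filter (fun d => IsPrimePow d ∧ d.minFac ≤ Z), Real.log d.minFac := by
    rw [sum_filter]
    apply sum_congr rfl
    intro d _
    unfold w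
    rw [ArithmeticFunction.vonMangoldt_apply]
    by_cases h1 : IsPrimePow d <;> by_cases h2 : d.minFac ≤ Z <;> simp [h1, h2]
  rw [h1]
  have h2 : (Ioc 0 N).filter (fun d => IsPrimePow d ∧ d.minFac ≤ Z) ⊆
      ((Icc 1 Z) ×ˢ (range (Nat.log 2 N + 1))).image (fun x => x.1 ^ x.2) := by
    intro d hd
    rw [mem_filter, mem_Ioc] at hd
    obtain ⟨p, k, hp, hk, hpk⟩ := (isPrimePow_nat_iff d).1 hd.2.1
    have hm : d.minFac = p := by rw [← hpk]; exact hp.pow_minFac hk.ne'
    rw [mem_image]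
    refine ⟨(p, k), ?_, hpk⟩
    rw [mem_product, mem_Icc, mem_range]
    refine ⟨⟨hp.one_lt.le, hm ▸ hd.2.2⟩, ?_⟩
    have h3 : 2 ^ k ≤ N := (Nat.pow_le_pow_left hp.two_le k).trans (hpk ▸ hd.1.2)
    have h4 : k ≤ Nat.log 2 N := Nat.le_log_of_pow_le (by norm_num) h3
    show k < Nat.log 2 N + 1
    omega
  have h3 : ((Ioc 0 N).filter (fun d => IsPrimePow d ∧ d.minFac ≤ Z)).card ≤ Z * (Nat.log 2 N + 1) := by
    refine (card_le_card h2).trans (card_image_le.trans ?_)
    rw [card_product, Nat.card_Icc, card_range]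
    simp
  calc ∑ d ∈ (Ioc 0 N).filter (fun d => IsPrimePow d ∧ d.minFac ≤ Z), Real.log d.minFac
      ≤ ((Ioc 0 N).filter (fun d => IsPrimePow d ∧ d.minFac ≤ Z)).card • Real.log Z := by
        apply sum_le_card_nsmul
        intro d hd
        rw [mem_filter] at hd
        apply Real.log_le_log
        · exact_mod_cast d.minFac_pos
        · exact_mod_cast hd.2.2
    _ ≤ _ := by
        rw [nsmul_eq_mul]
        apply mul_le_mul_of_nonneg_right _ (Real.log_natCast_nonneg Z)
        exact_mod_cast h3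

lemma upper (N A B Z D : ℕ) (hAB : A < B) (hB : B < N) (hD : D ≤ N) (hZ : D ≤ Z) (hZN : Z ≤ N) (M : ℕ → ℝ)
    (hM0 : ∀ d, 0 ≤ M d)
    (hM : ∀ d, 1 ≤ d → d ≤ D → N.Coprime d →
      Th N A B d ≤ ((B : ℝ) - A) / (Nat.totient d : ℝ) + 2 * M d) :
    ∑ d ∈ Ioc 0 N, w Z d * Th N A B d ≤
      ((B : ℝ) - A) * ∑ d ∈ Ioc 0 D, vonMangoldt d / (Nat.totient d : ℝ) +
      2 * Real.log D * ∑ d ∈ Icc 1 D, M d +
      ∑ ℓ ∈ Ioc D Z, (if ℓ.Prime then Real.log ℓ * Th N A B ℓ else 0) +
      Real.log B * (((B : ℝ) - A) * ∑ d ∈ Ioc D N, (if d.Prime then 0 else vonMangoldt d / d) +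
        Z * (Nat.log 2 N + 1) * Real.log Z) := by
  have hBA : (0 : ℝ) ≤ (B : ℝ) - A := by
    have : (A : ℝ) ≤ B := by exact_mod_cast hAB.le
    linarith
  have hlB := Real.log_natCast_nonneg B
  rw [← sum_Ioc_consecutive _ (Nat.zero_le D) hD]
  have h1 : ∑ d ∈ Ioc 0 D, w Z d * Th N A B d ≤
      ((B : ℝ) - A) * ∑ d ∈ Ioc 0 D, vonMangoldt d / (Nat.totient d : ℝ) +
      2 * Real.log D * ∑ d ∈ Icc 1 D, M d := by
    have e : Icc 1 D = Ioc 0 D := by ext x; simp only [mem_Icc, mem_Ioc]; omega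
    rw [e, mul_sum, mul_sum, ← sum_add_distrib]
    apply sum_le_sum
    intro d hd
    rw [mem_Ioc] at hd
    have hd0 : (0 : ℝ) < d := by exact_mod_cast hd.1
    have hlD : Real.log d ≤ Real.log D := Real.log_le_log hd0 (by exact_mod_cast hd.2)
    have hLd : vonMangoldt d ≤ Real.log D := ArithmeticFunction.vonMangoldt_le_log.trans hlD
    have hL0 : 0 ≤ vonMangoldt d := ArithmeticFunction.vonMangoldt_nonneg
    have hφ : (0 : ℝ) < Nat.totient d := by exact_mod_cast Nat.totient_pos.2 hd.1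
    have h2 : Th N A B d ≤ ((B : ℝ) - A) / (Nat.totient d : ℝ) + 2 * M d := by
      by_cases hc : N.Coprime d
      · exact hM d hd.1 hd.2 hc
      · rw [Th_zero N A B d hB hc]
        have := hM0 d
        positivity
    calc w Z d * Th N A B d ≤ vonMangoldt d * (((B : ℝ) - A) / (Nat.totient d : ℝ) + 2 * M d) :=
          mul_le_mul (w_le Z d) h2 (Th_nonneg _ _ _ _) hL0
      _ = ((B : ℝ) - A) * (vonMangoldt d / (Nat.totient d : ℝ)) + 2 * vonMangoldt d * M d := by ring
      _ ≤ _ := by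
          have := mul_le_mul_of_nonneg_right hLd (hM0 d)
          linarith
  have h2 : ∑ d ∈ Ioc D N, w Z d * Th N A B d ≤
      ∑ ℓ ∈ Ioc D Z, (if ℓ.Prime then Real.log ℓ * Th N A B ℓ else 0) +
      Real.log B * (((B : ℝ) - A) * ∑ d ∈ Ioc D N, (if d.Prime then 0 else vonMangoldt d / d) +
        Z * (Nat.log 2 N + 1) * Real.log Z) := by
    have h3 : ∑ ℓ ∈ Ioc D Z, (if ℓ.Prime then Real.log ℓ * Th N A B ℓ else 0) =
        ∑ ℓ ∈ Ioc D N, (if ℓ.Prime ∧ ℓ ≤ Z then Real.log ℓ * Th N A B ℓ else 0) := by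
      rw [← sum_Ioc_consecutive _ hZ hZN]
      have e1 : ∑ ℓ ∈ Ioc Z N, (if ℓ.Prime ∧ ℓ ≤ Z then Real.log ℓ * Th N A B ℓ else 0) = 0 := by
        apply sum_eq_zero
        intro ℓ hℓ
        rw [mem_Ioc] at hℓ
        rw [if_neg]
        omega
      rw [e1, add_zero]
      apply sum_congr rfl
      intro ℓ hℓ
      rw [mem_Ioc] at hℓ
      simp only [hℓ.2, and_true]
    have h4 : ∑ d ∈ Ioc D N, w Z d ≤ Z * (Nat.log 2 N + 1) * Real.log Z := by
      refine le_trans ?_ (w_total N Z)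
      apply sum_le_sum_of_subset_of_nonneg _ fun _ _ _ => w_nonneg _ _
      exact Ioc_subset_Ioc_left (Nat.zero_le D)
    have h5 : ∑ d ∈ Ioc D N, w Z d * Th N A B d ≤
        ∑ ℓ ∈ Ioc D N, (if ℓ.Prime ∧ ℓ ≤ Z then Real.log ℓ * Th N A B ℓ else 0) +
        Real.log B * (((B : ℝ) - A) * ∑ d ∈ Ioc D N, (if d.Prime then 0 else vonMangoldt d / d) +
          ∑ d ∈ Ioc D N, w Z d) := by
      rw [mul_sum, ← sum_add_distrib, mul_sum, ← sum_add_distrib]
      apply sum_le_sum
      intro d hd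
      rw [mem_Ioc] at hd
      have hd0 : (0 : ℝ) < d := by exact_mod_cast (by omega : 0 < d)
      by_cases hp : d.Prime
      · by_cases hZd : d ≤ Z
        · rw [if_pos ⟨hp, hZd⟩, if_pos hp]
          have e : w Z d = Real.log d := by
            unfold w
            rw [hp.minFac_eq, if_pos hZd, ArithmeticFunction.vonMangoldt_apply_prime hp]
          have := mul_nonneg hlB (w_nonneg Z d)
          rw [e] at this ⊢
          rw [mul_zero, zero_add]
          linarith
        · rw [if_neg (fun h => hZd h.2), if_pos hp]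
          have e : w Z d = 0 := by
            unfold w
            rw [hp.minFac_eq, if_neg hZd]
          rw [e]
          simp
      · rw [if_neg (fun h => hp h.1), if_neg hp]
        have h6 := Th_trivial N A B d hAB hB (by omega)
        calc w Z d * Th N A B d ≤ w Z d * (Real.log B * (((B : ℝ) - A) / d + 1)) :=
              mul_le_mul_of_nonneg_left h6 (w_nonneg _ _)
          _ = Real.log B * ((((B : ℝ) - A) / d) * w Z d + w Z d) := by ring
          _ ≤ Real.log B * ((((B : ℝ) - A) / d) * vonMangoldt d + w Z d) := by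
              apply mul_le_mul_of_nonneg_left _ hlB
              have := mul_le_mul_of_nonneg_left (w_le Z d) (by positivity : 0 ≤ ((B : ℝ) - A) / d)
              linarith
          _ = _ := by ring
    rw [h3]
    refine h5.trans ?_
    have := mul_le_mul_of_nonneg_left h4 hlB
    rw [mul_add, mul_add] at *
    linarith
  linarith

end Pool.Agent.K3h65.RL
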