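import Pool.Agent.K3h65.RL.Pieces
import Pool.Agent.K3h65.RL.Finite
import Pool.Agent.Y889.PN.BVMax

/-!
The Bombieri-Vinogradov part and the sum of `log p` over the window.
-/

set_option autoImplicit false

namespace Pool.Agent.K3h65.RL

open Finset Filter
open ArithmeticFunction (vonMangoldt)
open Pool.Agent.Y889.PN (PS bvmax)

/-- what is needed of the Bombieri-Vinogradov theorem -/
lemma bv_part (a ε : ℝ) (ha : 0 < a) (ha2 : a < 1 / 2) (hε : 0 < ε) :
    ∀ᶠ x : ℝ in atTop, ∃ M : ℕ → ℝ, (∀ d, 0 ≤ M d) ∧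
      (∀ d, 1 ≤ d → ∀ N : ℕ, N.Coprime d →
        |(PS ⌊3 * x⌋₊ d N - PS ⌈x⌉₊ d N) - ((⌊3 * x⌋₊ : ℝ) - ⌈x⌉₊) / (Nat.totient d : ℝ)| ≤ 2 * M d) ∧
      2 * Real.log ⌊x ^ a⌋₊ * ∑ d ∈ Icc 1 ⌊x ^ a⌋₊, M d ≤ ε * (x * Real.log x) ∧ 2 * M 1 ≤ ε * x := by
  obtain ⟨B', X0, hbv⟩ := bvmax 1
  have e1 : ∀ᶠ x : ℝ in atTop, Real.log x ^ B' ≤ 1 / 2 ^ B' * x ^ (1 - 2 * a) := by
    have h1 := isLittleO_log_rpow_rpow_atTop (s := 1 - 2 * a) (B' : ℝ) (by linarith)
    have h2 := h1.bound (c := 1 / 2 ^ B') (by positivity)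
    filter_upwards [h2, eventually_ge_atTop 3] with x h3 h4
    have hlx : 0 ≤ Real.log x := Real.log_nonneg (by linarith)
    rw [Real.rpow_natCast, Real.norm_of_nonneg (by positivity), Real.norm_of_nonneg (by positivity)] at h3
    exact h3
  have e2 : ∀ᶠ x : ℝ in atTop, 6 / ε ≤ Real.log x :=
    Real.tendsto_log_atTop.eventually (eventually_ge_atTop _)
  filter_upwards [e1, e2, eventually_ge_atTop 10, eventually_ge_atTop (X0 : ℝ)] with x h1 h2 h3 h4
  have hx0 : 0 < x := by linarith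
  have hlx : 0 < Real.log x := Real.log_pos (by linarith)
  obtain ⟨A, hA⟩ : ∃ A, A = ⌈x⌉₊ := ⟨_, rfl⟩
  obtain ⟨B, hB⟩ : ∃ B, B = ⌊3 * x⌋₊ := ⟨_, rfl⟩
  obtain ⟨D, hD⟩ : ∃ D, D = ⌊x ^ a⌋₊ := ⟨_, rfl⟩
  rw [← hA, ← hB, ← hD]
  have hA1 : x ≤ A := by rw [hA]; exact Nat.le_ceil x
  have hA2 : (A : ℝ) < x + 1 := by rw [hA]; exact Nat.ceil_lt_add_one hx0.le
  have hB1 : (B : ℝ) ≤ 3 * x := by rw [hB]; exact Nat.floor_le (by positivity)
  have hB2 : 3 * x < B + 1 := by rw [hB]; exact Nat.lt_floor_add_one _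
  have hAB : A < B := by
    have : (A : ℝ) < B := by linarith
    exact_mod_cast this
  have hxB : x ≤ B := by linarith
  have hD1 : (D : ℝ) ≤ x ^ a := by rw [hD]; exact Nat.floor_le (by positivity)
  have hlBx : Real.log x ≤ Real.log B := Real.log_le_log hx0 hxB
  have hlB3 : Real.log B ≤ 2 * Real.log x := by
    have h5 : (B : ℝ) ≤ x ^ 2 := by nlinarith
    have h6 := Real.log_le_log (by linarith) h5
    rw [Real.log_pow] at h6
    exact_mod_cast h6
  have hcond : (D : ℝ) ^ 2 * Real.log B ^ B' ≤ B := by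
    calc (D : ℝ) ^ 2 * Real.log B ^ B' ≤ (x ^ a) ^ 2 * (2 * Real.log x) ^ B' := by
          apply mul_le_mul _ _ (by positivity) (by positivity)
          · exact pow_le_pow_left₀ (Nat.cast_nonneg _) hD1 2
          · exact pow_le_pow_left₀ (hlx.le.trans hlBx) hlB3 _
      _ = x ^ (2 * a) * (2 ^ B' * Real.log x ^ B') := by
          rw [mul_pow, ← Real.rpow_natCast (x ^ a) 2, ← Real.rpow_mul hx0.le]
          congr 2
          push_cast
          ring
      _ ≤ x ^ (2 * a) * (2 ^ B' * (1 / 2 ^ B' * x ^ (1 - 2 * a))) := by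
          apply mul_le_mul_of_nonneg_left _ (by positivity)
          exact mul_le_mul_of_nonneg_left h1 (by positivity)
      _ = x ^ (2 * a) * x ^ (1 - 2 * a) := by
          congr 1
          field_simp
      _ = x := by
          rw [← Real.rpow_add hx0]
          have : 2 * a + (1 - 2 * a) = 1 := by ring
          rw [this, Real.rpow_one]
      _ ≤ B := hxB
  have hX0 : X0 ≤ B := by
    have : (X0 : ℝ) ≤ B := h4.trans hxB
    exact_mod_cast this
  obtain ⟨M, hM0, hM1, -, hM3⟩ := hbv B hX0 D hcond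
  have hsum : ∑ q ∈ Icc 1 D, M q ≤ 3 * x / Real.log x := by
    refine hM3.trans ?_
    rw [pow_one]
    exact div_le_div₀ (by positivity) hB1 hlx hlBx
  have hD1' : 1 ≤ D := by
    rw [hD, Nat.one_le_floor_iff]
    exact Real.one_le_rpow (by linarith) ha.le
  refine ⟨M, hM0, ?_, ?_, ?_⟩
  · intro d hd N hNd
    have h5 := hM1 d hd N hNd B le_rfl
    have h6 := hM1 d hd N hNd A hAB.le
    rw [abs_le] at h5 h6 ⊢
    rw [sub_div]
    constructor <;> linarith [h5.1, h5.2, h6.1, h6.2]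
  · have hlD : Real.log D ≤ Real.log x := by
      apply Real.log_le_log (by exact_mod_cast hD1')
      refine hD1.trans ?_
      calc x ^ a ≤ x ^ (1 : ℝ) := Real.rpow_le_rpow_of_exponent_le (by linarith) (by linarith)
        _ = x := Real.rpow_one x
    have hlD0 : 0 ≤ Real.log D := Real.log_natCast_nonneg D
    calc 2 * Real.log D * ∑ d ∈ Icc 1 D, M d ≤ 2 * Real.log x * (3 * x / Real.log x) := by
          apply mul_le_mul _ hsum (sum_nonneg fun _ _ => hM0 _) (by positivity)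
          linarith
      _ = 6 * x := by field_simp; norm_num
      _ ≤ ε * (x * Real.log x) := by
          rw [div_le_iff₀ hε] at h2
          nlinarith
  · have h5 : M 1 ≤ ∑ q ∈ Icc 1 D, M q :=
      single_le_sum (f := M) (fun _ _ => hM0 _) (mem_Icc.2 ⟨le_rfl, hD1'⟩)
    have h6 : 3 * x / Real.log x ≤ ε * x / 2 := by
      rw [div_le_iff₀ hlx]
      rw [div_le_iff₀ hε] at h2
      nlinarith
    linarith

/-- the primes of `(x, 3x]` not dividing `N` -/
lemma pp_part (κ ε : ℝ) (hκ : 0 < κ) (hε : 0 < ε) :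
    ∀ᶠ x : ℝ in atTop, ∀ N : ℕ, (N : ℝ) = x ^ κ →
      (2 - ε) * x ≤ ∑ p ∈ PP N ⌈x⌉₊ ⌊3 * x⌋₊, Real.log p := by
  obtain ⟨D₀, hD₀⟩ := np_tail (ε / 16) (by positivity)
  have e1 : ∀ᶠ x : ℝ in atTop, κ * Real.log x ≤ ε / 4 * x := by
    have h1 := Real.isLittleO_log_id_atTop.bound (c := ε / (4 * κ)) (by positivity)
    filter_upwards [h1, eventually_ge_atTop 3] with x h3 h4
    have hlx : 0 ≤ Real.log x := Real.log_nonneg (by linarith)
    rw [Real.norm_of_nonneg hlx, id, Real.norm_of_nonneg (by linarith)] at h3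
    calc κ * Real.log x ≤ κ * (ε / (4 * κ) * x) := mul_le_mul_of_nonneg_left h3 hκ.le
      _ = ε / 4 * x := by field_simp
  filter_upwards [e1, bv_part (1 / 4) (ε / 4) (by norm_num) (by norm_num) (by positivity),
    eventually_ge_atTop 10, eventually_ge_atTop (D₀ : ℝ), eventually_ge_atTop (8 / ε)] with x h1 h2 h3 h4 h5 N hN
  obtain ⟨M, hM0, hM1, -, hM3⟩ := h2
  have hx0 : 0 < x := by linarith
  have hlx : 0 < Real.log x := Real.log_pos (by linarith)
  obtain ⟨A, hA⟩ : ∃ A, A = ⌈x⌉₊ := ⟨_, rfl⟩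
  obtain ⟨B, hB⟩ : ∃ B, B = ⌊3 * x⌋₊ := ⟨_, rfl⟩
  rw [← hA, ← hB] at hM1
  rw [← hA, ← hB]
  have hA1 : x ≤ A := by rw [hA]; exact Nat.le_ceil x
  have hA2 : (A : ℝ) < x + 1 := by rw [hA]; exact Nat.ceil_lt_add_one hx0.le
  have hB1 : (B : ℝ) ≤ 3 * x := by rw [hB]; exact Nat.floor_le (by positivity)
  have hB2 : 3 * x < B + 1 := by rw [hB]; exact Nat.lt_floor_add_one _
  have hAB : A < B := by
    have : (A : ℝ) < B := by linarith
    exact_mod_cast this
  have hN0 : N ≠ 0 := by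
    rintro rfl
    rw [Nat.cast_zero] at hN
    have := Real.rpow_pos_of_pos hx0 κ
    linarith
  have hlN : Real.log N = κ * Real.log x := by rw [hN, Real.log_rpow hx0]
  -- the sum of `Λ`
  have h6 := (abs_le.1 (hM1 1 le_rfl 0 (Nat.coprime_one_right 0))).1
  rw [Nat.totient_one, Nat.cast_one, div_one] at h6
  have h7 : PS B 1 0 - PS A 1 0 = ∑ n ∈ Ioc A B, vonMangoldt n := by
    have e : ∀ Y : ℕ, PS Y 1 0 = ∑ n ∈ Ioc 0 Y, vonMangoldt n := by
      intro Y
      unfold Pool.Agent.Y889.PN.PS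
      apply sum_congr _ (fun _ _ => rfl)
      ext n
      simp only [mem_filter, mem_Icc, mem_Ioc, Nat.modEq_one, and_true]
      omega
    rw [e, e, ← sum_Ioc_consecutive _ (Nat.zero_le A) hAB.le]
    ring
  have h8 : ∑ n ∈ Ioc A B, vonMangoldt n ≤ ∑ p ∈ PP N A B, Real.log p +
      ∑ p ∈ N.primeFactors, Real.log p + B * ∑ d ∈ Ioc A B, (if d.Prime then 0 else vonMangoldt d / d) := by
    have e : ∀ n ∈ Ioc A B, vonMangoldt n ≤ (if n.Prime ∧ ¬ n ∣ N then Real.log n else 0) +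
        (if n ∈ N.primeFactors then Real.log n else 0) +
        B * (if n.Prime then 0 else vonMangoldt n / n) := by
      intro n hn
      rw [mem_Ioc] at hn
      have hn0 : (0 : ℝ) < n := by exact_mod_cast (by omega : 0 < n)
      by_cases hp : n.Prime
      · rw [ArithmeticFunction.vonMangoldt_apply_prime hp, if_pos hp, mul_zero, add_zero]
        by_cases hd : n ∣ N
        · rw [if_neg (fun h => h.2 hd), if_pos (Nat.mem_primeFactors.2 ⟨hp, hd, hN0⟩), zero_add]
        · rw [if_pos ⟨hp, hd⟩, if_neg (fun h => hd (Nat.mem_primeFactors.1 h).2.1), add_zero]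
      · rw [if_neg (fun h => hp h.1), if_neg (fun h => hp (Nat.mem_primeFactors.1 h).1), if_neg hp,
          add_zero, zero_add, ← mul_div_assoc, le_div_iff₀ hn0, mul_comm]
        apply mul_le_mul_of_nonneg_right _ ArithmeticFunction.vonMangoldt_nonneg
        exact_mod_cast hn.2
    refine (sum_le_sum e).trans ?_
    rw [sum_add_distrib, sum_add_distrib, ← mul_sum]
    have e2 : ∑ n ∈ Ioc A B, (if n.Prime ∧ ¬ n ∣ N then Real.log n else 0) = ∑ p ∈ PP N A B, Real.log p := by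
      unfold PP
      rw [sum_filter]
    have e3 : ∑ n ∈ Ioc A B, (if n ∈ N.primeFactors then Real.log n else 0) ≤ ∑ p ∈ N.primeFactors, Real.log p := by
      rw [← sum_filter]
      apply sum_le_sum_of_subset_of_nonneg
      · intro n hn
        exact (mem_filter.1 hn).2
      · intro n _ _
        exact Real.log_natCast_nonneg n
    linarith
  have h9 : ∑ p ∈ N.primeFactors, Real.log p ≤ Real.log N := by
    rw [← Real.log_prod (fun p hp => by
      have := (Nat.prime_of_mem_primeFactors hp).pos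
      positivity)]
    have e : (∏ p ∈ N.primeFactors, (p : ℝ)) = ((∏ p ∈ N.primeFactors, p : ℕ) : ℝ) := by push_cast; rfl
    rw [e]
    apply Real.log_le_log
    · exact_mod_cast Nat.pos_of_ne_zero (prod_ne_zero_iff.2 fun p hp => (Nat.prime_of_mem_primeFactors hp).ne_zero)
    · exact_mod_cast Nat.le_of_dvd (Nat.pos_of_ne_zero hN0) (Nat.prod_primeFactors_dvd N)
  have h10 : ∑ d ∈ Ioc A B, (if d.Prime then 0 else vonMangoldt d / d) ≤ ε / 16 := by
    apply hD₀
    have : (D₀ : ℝ) ≤ A := h4.trans hA1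
    exact_mod_cast this
  have h11 : B * ∑ d ∈ Ioc A B, (if d.Prime then 0 else vonMangoldt d / d) ≤ 3 * x * (ε / 16) :=
    (mul_le_mul_of_nonneg_left h10 (Nat.cast_nonneg B)).trans
      (mul_le_mul_of_nonneg_right hB1 (by positivity))
  have h12 : 2 ≤ ε / 4 * x := by
    rw [div_le_iff₀ hε] at h5
    linarith
  nlinarith

end Pool.Agent.K3h65.RL
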