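import Pool.Agent.K3h65.RL.BV
import Pool.Agent.K3h65.RL.BT

/-!
# Large prime factors of `N - p` with `p` in a short window

Chebyshev's method: the mean of `log (N - p) = ∑_{d ∣ N - p} Λ(d)` over the primes `p` of `(x, 3x]`, `N = x ^ κ`.
-/

set_option autoImplicit false

namespace Pool.Agent.K3h65.RL

open Finset Filter
open ArithmeticFunction (vonMangoldt)

lemma choose_eps (κ θ : ℝ) (hθ1 : θ < 1)
    (h : 1 / 2 + 2 * Real.log ((1 / 2) / (1 - θ)) < κ) :
    ∃ ε : ℝ, 0 < ε ∧ ε < 1 / 4 ∧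
      1 + 6 * ε + 2 * (2 + ε) * (1 + ε) ^ 3 * (Real.log ((1 / 2 + ε) / (1 - θ)) + ε) <
        (2 - 2 * ε) * (κ - ε) := by
  have h1 : 0 < 1 - θ := by linarith
  let f : ℝ → ℝ := fun ε => (2 - 2 * ε) * (κ - ε) -
    (1 + 6 * ε + 2 * (2 + ε) * (1 + ε) ^ 3 * (Real.log ((1 / 2 + ε) / (1 - θ)) + ε))
  have hf : ContinuousAt f 0 := by
    have h2 : ContinuousAt (fun ε : ℝ => Real.log ((1 / 2 + ε) / (1 - θ))) 0 := by
      apply ContinuousAt.log
      · fun_prop
      · have : (1 / 2 + (0 : ℝ)) / (1 - θ) > 0 := by positivity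
        exact this.ne'
    show ContinuousAt (fun ε : ℝ => (2 - 2 * ε) * (κ - ε) -
      (1 + 6 * ε + 2 * (2 + ε) * (1 + ε) ^ 3 * (Real.log ((1 / 2 + ε) / (1 - θ)) + ε))) 0
    fun_prop
  have hf0 : 0 < f 0 := by
    show 0 < (2 - 2 * (0 : ℝ)) * (κ - 0) -
      (1 + 6 * (0 : ℝ) + 2 * (2 + 0) * (1 + 0) ^ 3 * (Real.log ((1 / 2 + 0) / (1 - θ)) + 0))
    rw [add_zero]
    linarith
  have h3 : ∀ᶠ ε in nhds (0 : ℝ), 0 < f ε := hf.eventually (lt_mem_nhds hf0)
  obtain ⟨δ, hδ, hδf⟩ := Metric.eventually_nhds_iff.1 h3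
  refine ⟨min (δ / 2) (1 / 8), by positivity, (min_le_right _ _).trans_lt (by norm_num), ?_⟩
  have h4 : 0 < f (min (δ / 2) (1 / 8)) := by
    apply hδf
    rw [Real.dist_eq, sub_zero, abs_of_pos (by positivity)]
    exact (min_le_left _ _).trans_lt (by linarith)
  have h5 : f (min (δ / 2) (1 / 8)) = (2 - 2 * (min (δ / 2) (1 / 8))) * (κ - (min (δ / 2) (1 / 8))) -
    (1 + 6 * (min (δ / 2) (1 / 8)) + 2 * (2 + (min (δ / 2) (1 / 8))) * (1 + (min (δ / 2) (1 / 8))) ^ 3 *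
      (Real.log ((1 / 2 + (min (δ / 2) (1 / 8))) / (1 - θ)) + (min (δ / 2) (1 / 8)))) := rfl
  linarith

open scoped Classical in
theorem main (κ θ : ℝ) (hκ : 1 < κ) (hθ : 1 / 2 < θ) (hθ1 : θ < 1)
    (h : 1 / 2 + 2 * Real.log ((1 / 2) / (1 - θ)) < κ) :
    ∃ c : ℝ, 0 < c ∧ ∃ x₀ : ℝ, ∀ x : ℝ, x₀ ≤ x → ∀ N : ℕ, (N : ℝ) = x ^ κ →
      c * x / Real.log x ≤ (((range N).filter (fun p : ℕ => p.Prime ∧ x < p ∧ (p : ℝ) < 4 * x ∧
        ∃ q : ℕ, q.Prime ∧ q ∣ N - p ∧ x ^ θ < q)).card : ℝ) := by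

  obtain ⟨ε, hε, hε4, hmain⟩ := choose_eps κ θ hθ1 h
  obtain ⟨a, ha⟩ : ∃ a, a = 1 / 2 - ε := ⟨_, rfl⟩
  have ha0 : 0 < a := by linarith
  have ha2 : a < 1 / 2 := by linarith
  have haθ : a < θ := by linarith
  obtain ⟨C, hC0, hC⟩ := phi_sum
  obtain ⟨x1, hx1⟩ := pieces a θ ε ha0 haθ hθ1 hε
  obtain ⟨D₀, hD₀⟩ := np_tail ε hε
  refine ⟨ε / 2, by positivity, ?_⟩
  have e1 : ∀ᶠ x : ℝ in atTop, (D₀ : ℝ) ≤ x ^ a :=
    (tendsto_rpow_atTop ha0).eventually (eventually_ge_atTop _)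
  have e2 : ∀ᶠ x : ℝ in atTop, (C + 1) / ε ≤ Real.log x :=
    Real.tendsto_log_atTop.eventually (eventually_ge_atTop _)
  have e3 : ∀ᶠ x : ℝ in atTop, (6 : ℝ) ≤ x ^ (κ - 1) :=
    (tendsto_rpow_atTop (by linarith)).eventually (eventually_ge_atTop _)
  have e4 : ∀ᶠ x : ℝ in atTop, 2 * (2 * κ + 1) * Real.log x ^ 2 ≤ ε * x ^ (1 - θ) := by
    have h1 := isLittleO_log_rpow_rpow_atTop (s := 1 - θ) (2 : ℝ) (by linarith)
    have h2 := h1.bound (c := ε / (2 * (2 * κ + 1))) (by positivity)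
    filter_upwards [h2, eventually_ge_atTop 3] with x h3 h4
    have hlx : 0 ≤ Real.log x := Real.log_nonneg (by linarith)
    rw [Real.norm_of_nonneg (by positivity), Real.norm_of_nonneg (by positivity)] at h3
    have h5 : Real.log x ^ (2 : ℝ) = Real.log x ^ 2 := by
      rw [← Real.rpow_natCast]; norm_num
    rw [h5] at h3
    calc 2 * (2 * κ + 1) * Real.log x ^ 2 ≤ 2 * (2 * κ + 1) * (ε / (2 * (2 * κ + 1)) * x ^ (1 - θ)) :=
          mul_le_mul_of_nonneg_left h3 (by positivity)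
      _ = _ := by
          have : 2 * κ + 1 ≠ 0 := by positivity
          field_simp
  have e5 : ∀ᶠ x : ℝ in atTop, (1 : ℝ) ≤ Real.log x :=
    Real.tendsto_log_atTop.eventually (eventually_ge_atTop _)
  have hev := (bt_part a θ ε ha0 (by linarith) hθ1 hε).and ((bv_part a ε ha0 ha2 hε).and
    ((pp_part κ ε (by linarith) hε).and (e1.and (e2.and (e3.and (e4.and (e5.and
      ((eventually_ge_atTop 10).and (eventually_ge_atTop x1)))))))))
  obtain ⟨x₀, hx₀⟩ := eventually_atTop.1 hev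
  refine ⟨x₀, fun x hx N hN => ?_⟩
  obtain ⟨hbt, hbv, hpp, h1, h2, h3, h4, h5, h10, hx1x⟩ := hx₀ x hx
  have hx0 : 0 < x := by linarith
  have hlx : 0 < Real.log x := by linarith
  have hpieces := hx1 x hx1x
  have hppN := hpp N hN
  obtain ⟨M, hM0, hM1, hM2, -⟩ := hbv
  obtain ⟨A, hA⟩ : ∃ A, A = ⌈x⌉₊ := ⟨_, rfl⟩
  obtain ⟨B, hB⟩ : ∃ B, B = ⌊3 * x⌋₊ := ⟨_, rfl⟩
  obtain ⟨D, hD⟩ : ∃ D, D = ⌊x ^ a⌋₊ := ⟨_, rfl⟩
  obtain ⟨Z, hZ⟩ : ∃ Z, Z = ⌊x ^ θ⌋₊ := ⟨_, rfl⟩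
  rw [← hA, ← hB] at hppN hM1
  rw [← hD] at hM2
  rw [← hD, ← hZ] at hpieces
  rw [← hA, ← hB, ← hD, ← hZ] at hbt
  have hA1 : x ≤ A := by rw [hA]; exact Nat.le_ceil x
  have hA2 : (A : ℝ) < x + 1 := by rw [hA]; exact Nat.ceil_lt_add_one hx0.le
  have hB1 : (B : ℝ) ≤ 3 * x := by rw [hB]; exact Nat.floor_le (by positivity)
  have hB2 : 3 * x < B + 1 := by rw [hB]; exact Nat.lt_floor_add_one _
  have hAB : A < B := by
    have : (A : ℝ) < B := by linarith
    exact_mod_cast this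
  have hxB : x ≤ B := by linarith
  have hW : (B : ℝ) - A ≤ 2 * x := by linarith
  have hW0 : 0 ≤ (B : ℝ) - A := by linarith
  have hxN : 6 * x ≤ N := by
    rw [hN]
    have : x ^ κ = x ^ (κ - 1) * x := by
      nth_rewrite 3 [← Real.rpow_one x]
      rw [← Real.rpow_add hx0, sub_add_cancel]
    rw [this]
    exact mul_le_mul_of_nonneg_right h3 hx0.le
  have hBN2 : 2 * B ≤ N := by
    have : 2 * (B : ℝ) ≤ N := by linarith
    exact_mod_cast this
  have hBpos : 0 < B := by omega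
  have hBN : B < N := by omega
  have hlN : Real.log N = κ * Real.log x := by rw [hN, Real.log_rpow hx0]
  have hD1 : (D : ℝ) ≤ x ^ a := by rw [hD]; exact Nat.floor_le (by positivity)
  have hZ1 : (Z : ℝ) ≤ x ^ θ := by rw [hZ]; exact Nat.floor_le (by positivity)
  have hD1' : 1 ≤ D := by
    rw [hD, Nat.one_le_floor_iff]
    exact Real.one_le_rpow (by linarith) ha0.le
  have hDZ : D ≤ Z := by
    rw [hD, hZ]
    exact Nat.floor_mono (Real.rpow_le_rpow_of_exponent_le (by linarith) haθ.le)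
  have hxθ : x ^ θ ≤ x := by
    calc x ^ θ ≤ x ^ (1 : ℝ) := Real.rpow_le_rpow_of_exponent_le (by linarith) hθ1.le
      _ = x := Real.rpow_one x
  have hZN : Z ≤ N := by
    have : (Z : ℝ) ≤ N := by linarith
    exact_mod_cast this
  have hDN : D ≤ N := hDZ.trans hZN
  have hlB : Real.log B ≤ 2 * Real.log x := by
    have h5 : (B : ℝ) ≤ x ^ 2 := by nlinarith
    have h6 := Real.log_le_log (by linarith) h5
    rw [Real.log_pow] at h6
    exact_mod_cast h6
  have hlB0 : 0 ≤ Real.log B := Real.log_natCast_nonneg B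
  have hlD : Real.log D ≤ a * Real.log x := by
    rw [← Real.log_rpow hx0]
    exact Real.log_le_log (by exact_mod_cast hD1') hD1
  have hCε : C + 1 ≤ ε * Real.log x := by
    rw [div_le_iff₀ hε] at h2
    linarith
  have hl2 : Real.log 2 ≤ 1 := by have := Real.log_two_lt_d9; linarith
  have hl2' : 1 / 2 ≤ Real.log 2 := by have := Real.log_two_gt_d9; linarith
  -- the upper bound
  have hup := upper N A B Z D hAB hBN hDN hDZ hZN M hM0 (fun d hd _ hNd => by
    have e6 := Th_PS N A B d hAB.le hBN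
    have e7 := (abs_le.1 (hM1 d hd N hNd)).2
    unfold Pool.Agent.Y889.PN.PS at e7
    linarith)
  have t1 : ((B : ℝ) - A) * ∑ d ∈ Ioc 0 D, vonMangoldt d / (Nat.totient d : ℝ) ≤
      x * Real.log x * (2 * a + 2 * ε) := by
    have e6 := hC D hD1'
    have e7 : ∑ d ∈ Ioc 0 D, vonMangoldt d / (Nat.totient d : ℝ) ≤ (a + ε) * Real.log x := by linarith
    have e8 : 0 ≤ (a + ε) * Real.log x := by positivity
    calc ((B : ℝ) - A) * ∑ d ∈ Ioc 0 D, vonMangoldt d / (Nat.totient d : ℝ)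
        ≤ ((B : ℝ) - A) * ((a + ε) * Real.log x) := mul_le_mul_of_nonneg_left e7 hW0
      _ ≤ 2 * x * ((a + ε) * Real.log x) := mul_le_mul_of_nonneg_right hW e8
      _ = _ := by ring
  have t3 : ∑ ℓ ∈ Ioc D Z, (if ℓ.Prime then Real.log ℓ * Th N A B ℓ else 0) ≤
      x * Real.log x * (2 * (2 + ε) * (1 + ε) ^ 3 * (Real.log ((1 / 2 + ε) / (1 - θ)) + ε)) := by
    have e6 : ∑ ℓ ∈ Ioc D Z, (if ℓ.Prime then Real.log ℓ * Th N A B ℓ else 0) ≤
        (2 + ε) * (1 + ε) ^ 3 * (2 * x * Real.log x) *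
          ∑ ℓ ∈ Ioc D Z, (if ℓ.Prime then Real.log ℓ / (ℓ * Real.log (x / ℓ)) else 0) := by
      rw [mul_sum]
      apply sum_le_sum
      intro ℓ hℓ
      rw [mem_Ioc] at hℓ
      split_ifs with hp
      · have e7 := hbt N hBN ℓ hp hℓ.1 hℓ.2
        have e8 := mul_le_mul_of_nonneg_left e7 (Real.log_natCast_nonneg ℓ)
        refine e8.trans (le_of_eq ?_)
        ring
      · simp
    refine e6.trans ?_
    have e7 := mul_le_mul_of_nonneg_left hpieces
      (by positivity : 0 ≤ (2 + ε) * (1 + ε) ^ 3 * (2 * x * Real.log x))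
    have e8 : (1 : ℝ) - a = 1 / 2 + ε := by rw [ha]; ring
    rw [e8] at e7
    refine e7.trans (le_of_eq ?_)
    ring
  have t4 : Real.log B * (((B : ℝ) - A) * ∑ d ∈ Ioc D N, (if d.Prime then 0 else vonMangoldt d / d)) ≤
      x * Real.log x * (4 * ε) := by
    have e6 : ∑ d ∈ Ioc D N, (if d.Prime then 0 else vonMangoldt d / d) ≤ ε := by
      apply hD₀
      rw [hD]
      exact Nat.le_floor h1
    calc Real.log B * (((B : ℝ) - A) * ∑ d ∈ Ioc D N, (if d.Prime then 0 else vonMangoldt d / d))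
        ≤ Real.log B * (2 * x * ε) := by
          apply mul_le_mul_of_nonneg_left _ hlB0
          calc ((B : ℝ) - A) * ∑ d ∈ Ioc D N, (if d.Prime then 0 else vonMangoldt d / d)
              ≤ ((B : ℝ) - A) * ε := mul_le_mul_of_nonneg_left e6 hW0
            _ ≤ 2 * x * ε := mul_le_mul_of_nonneg_right hW hε.le
      _ ≤ 2 * Real.log x * (2 * x * ε) := mul_le_mul_of_nonneg_right hlB (by positivity)
      _ = _ := by ring
  have t5 : Real.log B * (Z * (Nat.log 2 N + 1) * Real.log Z) ≤ x * Real.log x * ε := by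
    have hZ0 : (0 : ℝ) < Z := by exact_mod_cast (by omega : 0 < Z)
    have e6 : Real.log Z ≤ Real.log x := Real.log_le_log hZ0 (hZ1.trans hxθ)
    have e7 : (Nat.log 2 N : ℝ) ≤ 2 * κ * Real.log x := by
      have e8 : 2 ^ Nat.log 2 N ≤ N := Nat.pow_log_le_self 2 (by omega)
      have e9 : (2 : ℝ) ^ Nat.log 2 N ≤ N := by exact_mod_cast e8
      have e10 := Real.log_le_log (by positivity) e9
      rw [Real.log_pow, hlN] at e10
      have e11 := mul_le_mul_of_nonneg_left hl2' (Nat.cast_nonneg (α := ℝ) (Nat.log 2 N))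
      linarith
    have e8 : (Nat.log 2 N : ℝ) + 1 ≤ (2 * κ + 1) * Real.log x := by linarith
    have hxx : x ^ θ * x ^ (1 - θ) = x := by
      rw [← Real.rpow_add hx0, add_sub_cancel, Real.rpow_one]
    calc Real.log B * (Z * (Nat.log 2 N + 1) * Real.log Z)
        ≤ (2 * Real.log x) * (x ^ θ * ((2 * κ + 1) * Real.log x) * Real.log x) := by
          apply mul_le_mul hlB _ _ (by positivity)
          · apply mul_le_mul _ e6 (Real.log_natCast_nonneg Z) (by positivity)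
            exact mul_le_mul hZ1 e8 (by positivity) (by positivity)
          · exact mul_nonneg (by positivity) (Real.log_natCast_nonneg Z)
      _ = Real.log x * x ^ θ * (2 * (2 * κ + 1) * Real.log x ^ 2) := by ring
      _ ≤ Real.log x * x ^ θ * (ε * x ^ (1 - θ)) := mul_le_mul_of_nonneg_left h4 (by positivity)
      _ = (x ^ θ * x ^ (1 - θ)) * Real.log x * ε := by ring
      _ = _ := by rw [hxx]
  -- the lower bound
  obtain ⟨G, hG⟩ : ∃ G, G = (PP N A B).filter (fun p : ℕ => ∃ q : ℕ, q.Prime ∧ q ∣ N - p ∧ Z < q) := ⟨_, rfl⟩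
  have hGP : G ⊆ PP N A B := hG ▸ filter_subset _ _
  have hlow := lower N A B Z (by omega) hBN2 G hGP (fun p hp hpG q hq hqd => by
    by_contra hqZ
    exact hpG (hG ▸ mem_filter.2 ⟨hp, q, hq, hqd, not_le.1 hqZ⟩)) (by omega)
  rw [switch N A B Z hBN] at hlow
  have hGcard : ε * x ≤ G.card * Real.log B := by
    by_contra hcon
    push Not at hcon
    have e6 : (2 - 2 * ε) * x ≤ ∑ p ∈ PP N A B, Real.log p - G.card * Real.log B := by linarith
    have e7 : (κ - ε) * Real.log x ≤ Real.log N - Real.log 2 := by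
      rw [hlN]; linarith
    have e8 : (2 - 2 * ε) * x * ((κ - ε) * Real.log x) ≤
        (∑ p ∈ PP N A B, Real.log p - G.card * Real.log B) * (Real.log N - Real.log 2) := by
      apply mul_le_mul e6 e7
      · exact mul_nonneg (by linarith) hlx.le
      · exact le_trans (mul_nonneg (by linarith) hx0.le) e6
    have e9 : ∑ d ∈ Ioc 0 N, w Z d * Th N A B d ≤ x * Real.log x *
        (1 + 6 * ε + 2 * (2 + ε) * (1 + ε) ^ 3 * (Real.log ((1 / 2 + ε) / (1 - θ)) + ε)) := by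
      have e10 : x * Real.log x *
        (1 + 6 * ε + 2 * (2 + ε) * (1 + ε) ^ 3 * (Real.log ((1 / 2 + ε) / (1 - θ)) + ε)) =
        x * Real.log x * (2 * a + 2 * ε) + ε * (x * Real.log x) +
        x * Real.log x * (2 * (2 + ε) * (1 + ε) ^ 3 * (Real.log ((1 / 2 + ε) / (1 - θ)) + ε)) +
        (x * Real.log x * (4 * ε) + x * Real.log x * ε) := by
        rw [ha]; ring
      rw [e10]
      rw [mul_add (Real.log (B : ℝ))] at hup
      linarith
    have e10 : 0 < x * Real.log x := by positivity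
    have e11 := mul_lt_mul_of_pos_left hmain e10
    have e12 : x * Real.log x * ((2 - 2 * ε) * (κ - ε)) = (2 - 2 * ε) * x * ((κ - ε) * Real.log x) := by ring
    linarith
  have hGsub : G ⊆ (range N).filter (fun p : ℕ => p.Prime ∧ x < p ∧ (p : ℝ) < 4 * x ∧
        ∃ q : ℕ, q.Prime ∧ q ∣ N - p ∧ x ^ θ < q) := by
    intro p hp
    rw [hG, mem_filter, mem_PP] at hp
    obtain ⟨⟨⟨hpA, hpB⟩, hpp, -⟩, q, hq, hqd, hqZ⟩ := hp
    rw [mem_filter, mem_range]
    have e6 : (A : ℝ) < p := by exact_mod_cast hpA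
    have e7 : (p : ℝ) ≤ B := by exact_mod_cast hpB
    refine ⟨by omega, hpp, by linarith, by linarith, q, hq, hqd, ?_⟩
    rw [hZ] at hqZ
    exact (Nat.floor_lt (by positivity)).1 hqZ
  have hGc : (G.card : ℝ) ≤ (((range N).filter (fun p : ℕ => p.Prime ∧ x < p ∧ (p : ℝ) < 4 * x ∧
        ∃ q : ℕ, q.Prime ∧ q ∣ N - p ∧ x ^ θ < q)).card : ℝ) := by
    exact_mod_cast card_le_card hGsub
  refine le_trans ?_ hGc
  rw [div_le_iff₀ hlx]
  have e6 := mul_le_mul_of_nonneg_left hlB (Nat.cast_nonneg (α := ℝ) G.card)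
  linarith

end Pool.Agent.K3h65.RL
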