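import Pool.Agent.K3h65.RL.Sums

/-!
The sum of `log ℓ / (ℓ log (x/ℓ))` over the primes `x^a < ℓ ≤ x^b`.
-/

set_option autoImplicit false

namespace Pool.Agent.K3h65.RL

open Finset
open ArithmeticFunction (vonMangoldt)

lemma piece : ∃ C : ℝ, 0 ≤ C ∧ ∀ x u v : ℝ, 1 < x → 0 ≤ u → u ≤ v → v < 1 →
    ∑ ℓ ∈ Ioc ⌊x ^ u⌋₊ ⌊x ^ v⌋₊, (if ℓ.Prime then Real.log ℓ / (ℓ * Real.log (x / ℓ)) else 0) ≤
      (v - u) / (1 - v) + C / ((1 - v) * Real.log x) := by
  obtain ⟨C, hC0, hC⟩ := prime_sum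
  refine ⟨C + 1, by positivity, fun x u v hx hu huv hv => ?_⟩
  have hx0 : 0 < x := by linarith
  have hlx : 0 < Real.log x := Real.log_pos hx
  have hxu : 1 ≤ x ^ u := Real.one_le_rpow hx.le hu
  have hxv : x ^ u ≤ x ^ v := Real.rpow_le_rpow_of_exponent_le hx.le huv
  have h1 : 1 ≤ ⌊x ^ u⌋₊ := (Nat.one_le_floor_iff _).2 hxu
  have h2 : ⌊x ^ u⌋₊ ≤ ⌊x ^ v⌋₊ := Nat.floor_mono hxv
  have h3 := hC _ _ h1 h2
  have hd : 0 < (1 - v) * Real.log x := mul_pos (by linarith) hlx
  have h4 : ∑ ℓ ∈ Ioc ⌊x ^ u⌋₊ ⌊x ^ v⌋₊, (if ℓ.Prime then Real.log ℓ / (ℓ * Real.log (x / ℓ)) else 0) ≤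
      1 / ((1 - v) * Real.log x) * ∑ p ∈ Ioc ⌊x ^ u⌋₊ ⌊x ^ v⌋₊, (if p.Prime then Real.log p / p else 0) := by
    rw [mul_sum]
    apply sum_le_sum
    intro ℓ hℓ
    rw [mem_Ioc] at hℓ
    split_ifs with hp
    · have hℓ0 : (0 : ℝ) < ℓ := by exact_mod_cast hp.pos
      have hℓv : (ℓ : ℝ) ≤ x ^ v := (Nat.le_floor_iff (by positivity)).1 hℓ.2
      have h5 : Real.log ℓ ≤ v * Real.log x := by
        rw [← Real.log_rpow hx0]
        exact Real.log_le_log hℓ0 hℓv
      have h6 : (1 - v) * Real.log x ≤ Real.log (x / ℓ) := by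
        rw [Real.log_div hx0.ne' hℓ0.ne']
        linarith
      have h7 : 0 ≤ Real.log ℓ := Real.log_natCast_nonneg ℓ
      rw [one_div_mul_eq_div, div_div]
      exact div_le_div_of_nonneg_left h7 (by positivity) (mul_le_mul_of_nonneg_left h6 hℓ0.le)
    · simp
  have h8 : Real.log ⌊x ^ v⌋₊ ≤ v * Real.log x := by
    rw [← Real.log_rpow hx0]
    apply Real.log_le_log _ (Nat.floor_le (by positivity))
    exact_mod_cast (by omega : 0 < ⌊x ^ v⌋₊)
  have h9 : u * Real.log x - 1 ≤ Real.log ⌊x ^ u⌋₊ := by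
    have h10 : x ^ u ≤ 2 * (⌊x ^ u⌋₊ : ℝ) := by
      have h11 := Nat.lt_floor_add_one (x ^ u)
      have h12 : (1 : ℝ) ≤ ⌊x ^ u⌋₊ := by exact_mod_cast h1
      linarith
    have h13 : (0 : ℝ) < ⌊x ^ u⌋₊ := by exact_mod_cast (by omega : 0 < ⌊x ^ u⌋₊)
    have h14 := Real.log_le_log (by positivity) h10
    rw [Real.log_rpow hx0, Real.log_mul (by norm_num) h13.ne'] at h14
    have h15 : Real.log 2 ≤ 1 := by
      have := Real.log_two_lt_d9; linarith
    linarith
  have h16 : ∑ p ∈ Ioc ⌊x ^ u⌋₊ ⌊x ^ v⌋₊, (if p.Prime then Real.log p / p else 0) ≤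
      (v - u) * Real.log x + (C + 1) := by
    have : (v - u) * Real.log x = v * Real.log x - u * Real.log x := by ring
    linarith
  refine h4.trans ((mul_le_mul_of_nonneg_left h16 (by positivity)).trans (le_of_eq ?_))
  have : 1 - v ≠ 0 := by linarith
  field_simp

lemma pieces (a b η : ℝ) (ha : 0 < a) (hab : a < b) (hb : b < 1) (hη : 0 < η) :
    ∃ x₀ : ℝ, ∀ x : ℝ, x₀ ≤ x →
      ∑ ℓ ∈ Ioc ⌊x ^ a⌋₊ ⌊x ^ b⌋₊, (if ℓ.Prime then Real.log ℓ / (ℓ * Real.log (x / ℓ)) else 0) ≤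
        Real.log ((1 - a) / (1 - b)) + η := by
  obtain ⟨C, hC0, hC⟩ := piece
  have h1a : 0 < 1 - a := by linarith
  have h1b : 0 < 1 - b := by linarith
  set L := Real.log ((1 - a) / (1 - b)) with hL
  have hL0 : 0 < L := Real.log_pos ((one_lt_div h1b).2 (by linarith))
  have heL : Real.exp (-L) = (1 - b) / (1 - a) := by
    rw [Real.exp_neg, hL, Real.exp_log (by positivity), inv_div]
  obtain ⟨m, hm⟩ := exists_nat_gt (max L (2 * L * (L + η / 2) / η))
  have hm1 : L < m := (le_max_left _ _).trans_lt hm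
  have hm2 : 2 * L * (L + η / 2) / η < m := (le_max_right _ _).trans_lt hm
  have hm0 : (0 : ℝ) < m := hL0.trans hm1
  set t := L / m with ht
  have ht0 : 0 < t := by positivity
  have ht1 : t < 1 := by rw [ht, div_lt_one hm0]; exact hm1
  have hmt : m * t = L := by rw [ht]; field_simp
  -- the sum of the main terms
  have hmain : m * (Real.exp t - 1) ≤ L + η / 2 := by
    have h1 : Real.exp t ≤ 1 / (1 - t) := by
      rw [le_div_iff₀ (by linarith)]
      have h2 := Real.add_one_le_exp (-t)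
      calc Real.exp t * (1 - t) ≤ Real.exp t * Real.exp (-t) :=
            mul_le_mul_of_nonneg_left (by linarith) (Real.exp_pos _).le
        _ = 1 := by rw [← Real.exp_add, add_neg_cancel, Real.exp_zero]
    have h3 : Real.exp t - 1 ≤ t / (1 - t) := by
      have : t / (1 - t) = 1 / (1 - t) - 1 := by
        have : 1 - t ≠ 0 := by linarith
        field_simp
        ring
      linarith
    have h4 : (L + η / 2) * t ≤ η / 2 := by
      rw [div_lt_iff₀ hη] at hm2
      have h5 : (L + η / 2) * t * m ≤ η / 2 * m := by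
        calc (L + η / 2) * t * m = (L + η / 2) * (m * t) := by ring
          _ = (L + η / 2) * L := by rw [hmt]
          _ ≤ η / 2 * m := by linarith
      exact le_of_mul_le_mul_right h5 hm0
    calc m * (Real.exp t - 1) ≤ m * (t / (1 - t)) := mul_le_mul_of_nonneg_left h3 hm0.le
      _ = L / (1 - t) := by rw [← mul_div_assoc, hmt]
      _ ≤ L + η / 2 := by
          rw [div_le_iff₀ (by linarith)]
          nlinarith
  let u : ℕ → ℝ := fun i => 1 - (1 - a) * Real.exp (-(i * t))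
  have hu0 : u 0 = a := by simp [u]
  have hum : u m = b := by
    show 1 - (1 - a) * Real.exp (-(m * t)) = b
    rw [hmt, heL]
    field_simp
    ring
  have hu1 : ∀ i, 1 - u i = (1 - a) * Real.exp (-(i * t)) := by
    intro i
    show 1 - (1 - (1 - a) * Real.exp (-(i * t))) = _
    ring
  have hustep : ∀ i : ℕ, Real.exp (-(i * t)) = Real.exp t * Real.exp (-((i + 1 : ℕ) * t)) := by
    intro i
    rw [← Real.exp_add]
    congr 1
    push_cast
    ring
  have hlt : ∀ i, u i < 1 := by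
    intro i
    have h1 := hu1 i
    have h2 := mul_pos h1a (Real.exp_pos (-(i * t)))
    linarith
  have humono : ∀ i, u i ≤ u (i + 1) := by
    intro i
    have h1 := hu1 i
    have h2 := hu1 (i + 1)
    rw [hustep i] at h1
    have h3 : 1 ≤ Real.exp t := Real.one_le_exp ht0.le
    have h4 := Real.exp_pos (-((i + 1 : ℕ) * t))
    have h5 : (1 - a) * Real.exp (-((i + 1 : ℕ) * t)) ≤ (1 - a) * (Real.exp t * Real.exp (-((i + 1 : ℕ) * t))) := by
      apply mul_le_mul_of_nonneg_left _ h1a.le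
      nlinarith
    linarith
  have hum' : Monotone u := monotone_nat_of_le_succ humono
  have hua : ∀ i, a ≤ u i := fun i => hu0 ▸ hum' (Nat.zero_le i)
  have hratio : ∀ i, (u (i + 1) - u i) / (1 - u (i + 1)) = Real.exp t - 1 := by
    intro i
    have h1 := hu1 i
    have h2 := hu1 (i + 1)
    rw [hustep i] at h1
    have h4 := Real.exp_pos (-((i + 1 : ℕ) * t))
    have h5 : u (i + 1) - u i = (1 - u i) - (1 - u (i + 1)) := by ring
    rw [h5, h1, h2]
    field_simp
  -- choose `x₀`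
  refine ⟨Real.exp (2 * m * C / ((1 - b) * η) + 1), fun x hx => ?_⟩
  have hpos : 0 ≤ 2 * m * C / ((1 - b) * η) := by positivity
  have hx0 : 0 < x := (Real.exp_pos _).trans_le hx
  have hlx : 2 * m * C / ((1 - b) * η) + 1 ≤ Real.log x := (Real.le_log_iff_exp_le hx0).2 hx
  have hlx0 : 0 < Real.log x := by linarith
  have hx1 : 1 < x := by
    by_contra h
    push Not at h
    have := Real.log_nonpos hx0.le h
    linarith
  have key : ∀ k : ℕ, k ≤ m → ∑ ℓ ∈ Ioc ⌊x ^ u 0⌋₊ ⌊x ^ u k⌋₊,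
      (if ℓ.Prime then Real.log ℓ / (ℓ * Real.log (x / ℓ)) else 0) ≤
      k * (Real.exp t - 1 + C / ((1 - b) * Real.log x)) := by
    intro k
    induction k with
    | zero => intro _; simp
    | succ k ih =>
      intro hk
      have h1 := ih (by omega)
      have h2 := hC x (u k) (u (k + 1)) hx1 (ha.le.trans (hua k)) (humono k) (hlt _)
      rw [hratio] at h2
      have h3 : b ≤ 1 := hb.le
      have h4 : u (k + 1) ≤ b := hum ▸ hum' hk
      have h5 : C / ((1 - u (k + 1)) * Real.log x) ≤ C / ((1 - b) * Real.log x) := by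
        apply div_le_div_of_nonneg_left hC0 (by positivity)
        exact mul_le_mul_of_nonneg_right (by linarith) hlx0.le
      have h6 : ⌊x ^ u 0⌋₊ ≤ ⌊x ^ u k⌋₊ :=
        Nat.floor_mono (Real.rpow_le_rpow_of_exponent_le hx1.le (hum' (Nat.zero_le k)))
      have h7 : ⌊x ^ u k⌋₊ ≤ ⌊x ^ u (k + 1)⌋₊ :=
        Nat.floor_mono (Real.rpow_le_rpow_of_exponent_le hx1.le (humono k))
      rw [← sum_Ioc_consecutive _ h6 h7]
      push_cast
      linarith
  have hfin := key m le_rfl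
  rw [hu0, hum] at hfin
  refine hfin.trans ?_
  have h8 : m * (C / ((1 - b) * Real.log x)) ≤ η / 2 := by
    rw [← mul_div_assoc, div_le_iff₀ (by positivity)]
    have h9 : 2 * m * C / ((1 - b) * η) ≤ Real.log x := by linarith
    rw [div_le_iff₀ (by positivity)] at h9
    nlinarith
  rw [mul_add]
  linarith

end Pool.Agent.K3h65.RL
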