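import Pool.Agent.Erdos456.Mertens

/-!
Sums of the von Mangoldt function: prime powers, sums over primes in intervals.
-/

set_option autoImplicit false

namespace Pool.Agent.K3h65.RL

open Finset
open ArithmeticFunction (vonMangoldt)

lemma prime_sum : ∃ C : ℝ, 0 ≤ C ∧ ∀ a b : ℕ, 1 ≤ a → a ≤ b →
    ∑ p ∈ Ioc a b, (if p.Prime then Real.log p / p else 0) ≤ Real.log b - Real.log a + C := by
  obtain ⟨C, hC⟩ := Pool.Agent.Erdos456.Mert.mertens_log
  refine ⟨2 * |C|, by positivity, fun a b ha hab => ?_⟩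
  have h1 := (abs_le.1 (hC a ha)).1
  have h2 := (abs_le.1 (hC b (ha.trans hab))).2
  have h3 : ∑ p ∈ (Icc 1 b).filter Nat.Prime, Real.log p / p =
      ∑ p ∈ (Icc 1 a).filter Nat.Prime, Real.log p / p +
        ∑ p ∈ Ioc a b, (if p.Prime then Real.log p / p else 0) := by
    rw [sum_filter, sum_filter]
    have e : Icc 1 b = Icc 1 a ∪ Ioc a b := by
      ext x
      simp only [mem_union, mem_Icc, mem_Ioc]
      omega
    rw [e, sum_union]
    rw [disjoint_left]
    intro x h1 h2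
    simp only [mem_Icc, mem_Ioc] at h1 h2
    omega
  have h4 := le_abs_self C
  linarith

lemma log_sum (n : ℕ) : ∑ d ∈ Ioc 0 n, vonMangoldt d * ((n / d : ℕ) : ℝ) = ∑ m ∈ Ioc 0 n, Real.log m := by
  have h1 : ∀ m ∈ Ioc 0 n, Real.log m = ∑ d ∈ Ioc 0 n, if d ∣ m then vonMangoldt d else 0 := by
    intro m hm
    rw [mem_Ioc] at hm
    rw [← sum_filter, ← ArithmeticFunction.vonMangoldt_sum]
    apply sum_congr _ (fun _ _ => rfl)
    ext d
    simp only [Nat.mem_divisors, mem_filter, mem_Ioc]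
    constructor
    · rintro ⟨h, h0⟩
      exact ⟨⟨Nat.pos_of_dvd_of_pos h hm.1, (Nat.le_of_dvd hm.1 h).trans hm.2⟩, h⟩
    · rintro ⟨_, h⟩
      exact ⟨h, by omega⟩
  rw [sum_congr rfl h1, sum_comm]
  apply sum_congr rfl
  intro d hd
  rw [← sum_filter, sum_const, Nat.Ioc_filter_dvd_card_eq_div, nsmul_eq_mul, mul_comm]

lemma np : ∃ C : ℝ, 0 ≤ C ∧ ∀ n : ℕ, ∑ d ∈ Ioc 0 n, (if d.Prime then 0 else vonMangoldt d / d) ≤ C := by
  obtain ⟨C, hC⟩ := Pool.Agent.Erdos456.Mert.mertens_log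
  refine ⟨2 * (|C| + 2), by positivity, fun n => ?_⟩
  rcases Nat.eq_zero_or_pos n with rfl | hn
  · simp
    positivity
  have hn0 : (0 : ℝ) < n := by exact_mod_cast hn
  have h1 := (abs_le.1 (hC n hn)).1
  have hth := Pool.Agent.Erdos456.Mert.theta_le n
  have hIcc : Icc 1 n = Ioc 0 n := by
    ext x; simp only [mem_Icc, mem_Ioc]; omega
  unfold Pool.Agent.Erdos456.Mert.PP at hth
  rw [hIcc, sum_filter] at hth h1
  have hlog : ∑ m ∈ Ioc 0 n, Real.log m ≤ n * Real.log n := by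
    calc ∑ m ∈ Ioc 0 n, Real.log m ≤ ∑ m ∈ Ioc 0 n, Real.log n := by
          apply sum_le_sum
          intro m hm
          rw [mem_Ioc] at hm
          exact Real.log_le_log (by exact_mod_cast hm.1) (by exact_mod_cast hm.2)
      _ = _ := by rw [sum_const, Nat.card_Ioc, nsmul_eq_mul, Nat.sub_zero]
  have hsplit := log_sum n
  have h2 : ∑ d ∈ Ioc 0 n, vonMangoldt d * ((n / d : ℕ) : ℝ) =
      ∑ d ∈ Ioc 0 n, (if d.Prime then Real.log d * ((n / d : ℕ) : ℝ) else 0) +
      ∑ d ∈ Ioc 0 n, (if d.Prime then 0 else vonMangoldt d * ((n / d : ℕ) : ℝ)) := by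
    rw [← sum_add_distrib]
    apply sum_congr rfl
    intro d _
    split_ifs with h
    · rw [ArithmeticFunction.vonMangoldt_apply_prime h, add_zero]
    · rw [zero_add]
  have h3 : (n : ℝ) * ∑ d ∈ Ioc 0 n, (if d.Prime then Real.log d / d else 0) -
      ∑ d ∈ Ioc 0 n, (if d.Prime then Real.log d else 0) ≤
      ∑ d ∈ Ioc 0 n, (if d.Prime then Real.log d * ((n / d : ℕ) : ℝ) else 0) := by
    rw [mul_sum, ← sum_sub_distrib]
    apply sum_le_sum
    intro d hd
    rw [mem_Ioc] at hd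
    split_ifs with h
    · have hd0 : (0 : ℝ) < d := by exact_mod_cast hd.1
      have h4 : (n : ℝ) / d - 1 ≤ ((n / d : ℕ) : ℝ) := by
        have h5 : n < d * (n / d + 1) := Nat.lt_mul_div_succ n hd.1
        have h6 : (n : ℝ) < d * (((n / d : ℕ) : ℝ) + 1) := by exact_mod_cast h5
        rw [sub_le_iff_le_add, div_le_iff₀ hd0]
        linarith
      have h7 : 0 ≤ Real.log d := Real.log_natCast_nonneg d
      calc (n : ℝ) * (Real.log d / d) - Real.log d = Real.log d * (n / d - 1) := by ring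
        _ ≤ _ := mul_le_mul_of_nonneg_left h4 h7
    · simp
  have h4 : (n : ℝ) / 2 * ∑ d ∈ Ioc 0 n, (if d.Prime then 0 else vonMangoldt d / d) ≤
      ∑ d ∈ Ioc 0 n, (if d.Prime then 0 else vonMangoldt d * ((n / d : ℕ) : ℝ)) := by
    rw [mul_sum]
    apply sum_le_sum
    intro d hd
    rw [mem_Ioc] at hd
    split_ifs with h
    · simp
    · have hd0 : (0 : ℝ) < d := by exact_mod_cast hd.1
      have h5 : (n : ℝ) / (2 * d) ≤ ((n / d : ℕ) : ℝ) := by
        have h6 : 1 ≤ n / d := (Nat.one_le_div_iff hd.1).2 hd.2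
        have h7 : n < d * (n / d + 1) := Nat.lt_mul_div_succ n hd.1
        have h8 : n ≤ d * (2 * (n / d)) := h7.le.trans (Nat.mul_le_mul_left _ (by omega))
        have h9 : (n : ℝ) ≤ d * (2 * ((n / d : ℕ) : ℝ)) := by exact_mod_cast h8
        rw [div_le_iff₀ (by positivity)]
        linarith
      calc (n : ℝ) / 2 * (vonMangoldt d / d) = vonMangoldt d * (n / (2 * d)) := by
            field_simp
        _ ≤ _ := mul_le_mul_of_nonneg_left h5 ArithmeticFunction.vonMangoldt_nonneg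
  have h5 : (n : ℝ) * (Real.log n - |C|) ≤ (n : ℝ) * ∑ d ∈ Ioc 0 n, (if d.Prime then Real.log d / d else 0) := by
    apply mul_le_mul_of_nonneg_left _ hn0.le
    have := le_abs_self C
    linarith
  have h6 : (n : ℝ) / 2 * ∑ d ∈ Ioc 0 n, (if d.Prime then 0 else vonMangoldt d / d) ≤ n / 2 * (2 * (|C| + 2)) := by
    nlinarith
  exact le_of_mul_le_mul_left h6 (by positivity)

/-- the tail of the sum over the proper prime powers -/
lemma np_tail (ε : ℝ) (hε : 0 < ε) : ∃ D₀ : ℕ, ∀ D : ℕ, D₀ ≤ D → ∀ n : ℕ,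
    ∑ d ∈ Ioc D n, (if d.Prime then 0 else vonMangoldt d / d) ≤ ε := by
  obtain ⟨C, hC0, hC⟩ := np
  let g : ℕ → ℝ := fun d => if d.Prime then 0 else vonMangoldt d / d
  have hg : ∀ d, 0 ≤ g d := by
    intro d
    show 0 ≤ if d.Prime then 0 else vonMangoldt d / (d : ℝ)
    split_ifs
    · exact le_rfl
    · exact div_nonneg ArithmeticFunction.vonMangoldt_nonneg (Nat.cast_nonneg d)
  have hg0 : g 0 = 0 := by simp [g]
  have hr : ∀ n : ℕ, ∑ d ∈ range (n + 1), g d = ∑ d ∈ Ioc 0 n, g d := by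
    intro n
    have e : range (n + 1) = insert 0 (Ioc 0 n) := by
      ext x; simp only [mem_range, mem_insert, mem_Ioc]; omega
    rw [e, sum_insert (by simp), hg0, zero_add]
  have hs : Summable g := by
    apply summable_of_sum_range_le (c := C) hg
    intro n
    calc ∑ d ∈ range n, g d ≤ ∑ d ∈ range (n + 1), g d :=
          sum_le_sum_of_subset_of_nonneg (range_mono (Nat.le_succ n)) fun _ _ _ => hg _
      _ = ∑ d ∈ Ioc 0 n, g d := hr n
      _ ≤ C := hC n
  have ht := hs.hasSum.tendsto_sum_nat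
  have h1 := (tendsto_order.1 ht).1 (∑' d, g d - ε) (by linarith)
  obtain ⟨D₀, hD₀⟩ := Filter.eventually_atTop.1 h1
  refine ⟨D₀, fun D hD n => ?_⟩
  rcases le_total n D with hn | hn
  · rw [Ioc_eq_empty_of_le hn, sum_empty]
    exact hε.le
  have h2 := hD₀ (D + 1) (by omega)
  have h3 : ∑ d ∈ range (n + 1), g d ≤ ∑' d, g d := hs.sum_le_tsum _ fun _ _ => hg _
  have h4 : ∑ d ∈ range (n + 1), g d = ∑ d ∈ range (D + 1), g d + ∑ d ∈ Ioc D n, g d := by
    rw [hr, hr]
    exact (sum_Ioc_consecutive g (Nat.zero_le D) hn).symm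
  show ∑ d ∈ Ioc D n, g d ≤ ε
  linarith

lemma le_two_totient {d : ℕ} (h : vonMangoldt d ≠ 0) : (d : ℝ) ≤ 2 * (Nat.totient d : ℝ) := by
  rw [ArithmeticFunction.vonMangoldt_ne_zero_iff] at h
  obtain ⟨p, k, hp, hk, rfl⟩ := (isPrimePow_nat_iff _).1 h
  rw [Nat.totient_prime_pow hp hk]
  have h1 : p ^ k ≤ 2 * (p ^ (k - 1) * (p - 1)) := by
    obtain ⟨j, rfl⟩ : ∃ j, k = j + 1 := ⟨k - 1, by omega⟩
    rw [Nat.add_sub_cancel, pow_succ]
    have h2 : p ≤ 2 * (p - 1) := by have := hp.two_le; omega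
    calc p ^ j * p ≤ p ^ j * (2 * (p - 1)) := Nat.mul_le_mul_left _ h2
      _ = _ := by ring
  exact_mod_cast h1

/-- `∑ Λ(d) / φ(d)` -/
lemma phi_sum : ∃ C : ℝ, 0 ≤ C ∧ ∀ n : ℕ, 1 ≤ n →
    ∑ d ∈ Ioc 0 n, vonMangoldt d / (Nat.totient d : ℝ) ≤ Real.log n + C := by
  obtain ⟨C1, hC1, h1⟩ := prime_sum
  obtain ⟨C2, hC2, h2⟩ := np
  obtain ⟨C3, hC3, h3⟩ := Pool.Agent.Erdos456.Mert.sum_small_bound
  refine ⟨C1 + 2 * C2 + C3, by positivity, fun n hn => ?_⟩
  have e1 := h1 1 n le_rfl hn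
  have e2 := h2 n
  have e3 := h3 n
  have hIcc : Icc 1 n = Ioc 0 n := by
    ext x; simp only [mem_Icc, mem_Ioc]; omega
  unfold Pool.Agent.Erdos456.Mert.PP at e3
  rw [hIcc, sum_filter] at e3
  rw [Nat.cast_one, Real.log_one, sub_zero] at e1
  have e4 : ∑ p ∈ Ioc 0 n, (if p.Prime then Real.log p / p else 0) =
      ∑ p ∈ Ioc 1 n, (if p.Prime then Real.log (p : ℝ) / p else 0) := by
    have e : Ioc 0 n = insert 1 (Ioc 1 n) := by
      ext x; simp only [mem_insert, mem_Ioc]; omega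
    rw [e, sum_insert (by simp)]
    simp [Nat.not_prime_one]
  have key : ∀ d ∈ Ioc 0 n, vonMangoldt d / (Nat.totient d : ℝ) ≤
      (if d.Prime then Real.log d / d else 0) + 2 * (if d.Prime then 0 else vonMangoldt d / d) +
        (if d.Prime then Real.log d / (d * (d - 1)) else 0) := by
    intro d hd
    rw [mem_Ioc] at hd
    have hd0 : (0 : ℝ) < d := by exact_mod_cast hd.1
    split_ifs with h
    · have h5 : (2 : ℝ) ≤ d := by exact_mod_cast h.two_le
      rw [ArithmeticFunction.vonMangoldt_apply_prime h, Nat.totient_prime h,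
        Nat.cast_sub h.one_lt.le, Nat.cast_one, mul_zero, add_zero]
      apply le_of_eq
      have : (d : ℝ) - 1 ≠ 0 := by linarith
      field_simp
      ring
    · by_cases h0 : vonMangoldt d = 0
      · rw [h0]; simp
      · have h5 := le_two_totient h0
        have h6 : (0 : ℝ) < Nat.totient d := by exact_mod_cast Nat.totient_pos.2 hd.1
        rw [zero_add, add_zero, div_le_iff₀ h6]
        have h7 := ArithmeticFunction.vonMangoldt_nonneg (n := d)
        calc vonMangoldt d = vonMangoldt d / d * d := by field_simp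
          _ ≤ vonMangoldt d / d * (2 * Nat.totient d) := mul_le_mul_of_nonneg_left h5 (by positivity)
          _ = _ := by ring
  refine (sum_le_sum key).trans ?_
  rw [sum_add_distrib, sum_add_distrib, ← mul_sum, e4]
  linarith

end Pool.Agent.K3h65.RL
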